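import Pool.Agent.H48.ER.Targets

/-! Row PLM: shortest connections between rungs. -/

set_option autoImplicit false

namespace Pool.Agent.H26.ER

open Pool.Agent.H48.ER

theorem fin3 {i j k m : Fin 3} (h1 : i ≠ j) (h2 : k ≠ i) (h3 : k ≠ j) :
    m = i ∨ m = j ∨ m = k := by
  revert h1 h2 h3
  revert i j k m
  decide

theorem pf_PLM (hCON : T_CON) : T_PLM := by
  intro V G P D _ hCn hDP hex
  classical
  set Q : ℕ → Prop := fun l => ∃ (i j : Fin 3) (d d' : V) (R : Set V), i ≠ j ∧ IP G l d d' R ∧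
    R ⊆ D ∧ (∃ g ∈ P i, G.Adj d g) ∧ ∃ g ∈ P j, G.Adj d' g with hQ
  have hQex : ∃ l, Q l := by
    obtain ⟨i, j, hij, ⟨d, hd, g, hg, hdg⟩, d', hd', g', hg', hdg'⟩ := hex
    obtain ⟨n, R, hR, hRD⟩ := hCON V G D d d' hCn hd hd'
    exact ⟨n, i, j, d, d', R, hij, hR, hRD, ⟨g, hg, hdg⟩, g', hg', hdg'⟩
  have hmin : ∀ m, Q m → Nat.find hQex ≤ m := fun m hm => Nat.find_min' hQex hm
  obtain ⟨i, j, d, d', R, hij, hR, hRD, hdi, hdj⟩ := Nat.find_spec hQex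
  have hver : ∀ r ∈ R, r ∉ ver P := fun r hr => Set.disjoint_left.1 hDP (hRD hr)
  by_cases hall : ∃ d ∈ D, ∀ i, ∃ g ∈ P i, G.Adj d g
  · exact Or.inl hall
  refine Or.inr ⟨i, j, Nat.find hQex, d, d', R, hij, ⟨hR, hver, ?_⟩, hRD, hdi, hdj⟩
  intro r hr g hg hrg
  obtain ⟨k, hk⟩ := hg
  -- one vertex with two rungs
  have hone : ∀ v ∈ R, ∀ a b : Fin 3, a ≠ b → (∃ g ∈ P a, G.Adj v g) → (∃ g ∈ P b, G.Adj v g) →
      Nat.find hQex = 0 := by
    intro v hv a b hab ha hb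
    have : Q 0 := ⟨a, b, v, v, {v}, hab, IP.zero v, Set.singleton_subset_iff.2 (hRD hv), ha, hb⟩
    have := hmin 0 this
    omega
  by_cases h0 : Nat.find hQex = 0
  · rw [h0] at hR
    obtain ⟨e, hRs⟩ := hR.eq_of_zero
    have hrd : r = d := by rw [hRs] at hr; exact hr
    by_cases hki : k = i
    · exact Or.inl ⟨hrd, hki ▸ hk⟩
    by_cases hkj : k = j
    · exact Or.inr ⟨hrd.trans e, hkj ▸ hk⟩
    exfalso
    refine hall ⟨d, hRD hR.left_mem, fun m => ?_⟩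
    rcases fin3 (m := m) hij hki hkj with h | h | h
    · rw [h]; exact hdi
    · rw [h, e]; exact hdj
    · rw [h]; exact ⟨g, hk, hrd ▸ hrg⟩
  · obtain ⟨p, q, R1, R2, hR1, hR2, hpq, hU, -, -⟩ := hR.split hr
    have hR1D : R1 ⊆ D := fun v hv => hRD (hU ▸ Or.inl hv)
    have hR2D : R2 ⊆ D := fun v hv => hRD (hU ▸ Or.inr hv)
    by_cases hki : k = i
    · have hQq : Q q := ⟨i, j, r, d', R2, hij, hR2, hR2D, ⟨g, hki ▸ hk, hrg⟩, hdj⟩
      have := hmin q hQq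
      have hp : p = 0 := by omega
      rw [hp] at hR1
      exact Or.inl ⟨hR1.eq_of_zero.1.symm, hki ▸ hk⟩
    · have hQp : Q p := ⟨i, k, d, r, R1, fun h => hki h.symm, hR1, hR1D, hdi, g, hk, hrg⟩
      have := hmin p hQp
      have hq : q = 0 := by omega
      rw [hq] at hR2
      have hrd : r = d' := hR2.eq_of_zero.1
      by_cases hkj : k = j
      · exact Or.inr ⟨hrd, hkj ▸ hk⟩
      · exact absurd (hone r hr k j hkj ⟨g, hk, hrg⟩ (hrd ▸ hdj)) h0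

end Pool.Agent.H26.ER
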